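import Mathlib
import Pool.Agent.H502.JRBFinal

open Matrix

namespace Pool.Agent.Results.MP_f4742e_al.FormallyReal

open JRB

/-- The set of all natural numbers `k` such that `R ^ k = 0` for every Rota-Baxter operator `R` of
weight `0` for the product `mul`. -/
def rbSet (F : Type*) [Field F] {V : Type*} [AddCommGroup V] [Module F V] (mul : V → V → V) : Set ℕ :=
  {k | ∀ R : V →ₗ[F] V, IsRB F mul R → R ^ k = 0}

/-- `m` is the RB-index of the algebra `(V, mul)`. -/
def IsRBIndex (F : Type*) [Field F] {V : Type*} [AddCommGroup V] [Module F V] (mul : V → V → V)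
    (m : ℕ) : Prop := IsLeast (rbSet F mul) m

variable {F : Type*} [Field F]

theorem sum_sq_zero [IsFormallyReal F] {k : ℕ} (x : Fin k → F) (h : ∑ i, x i ^ 2 = 0) (i : Fin k) : x i = 0 := by
  rw [← Finset.add_sum_erase _ _ (Finset.mem_univ i)] at h
  have h1 : IsSumSq (x i ^ 2) := by rw [sq]; exact IsSumSq.mul_self _
  have h2 : IsSumSq (∑ j ∈ Finset.univ.erase i, x j ^ 2) := by
    refine IsSumSq.sum fun j _ => ?_
    rw [sq]; exact IsSumSq.mul_self _
  exact pow_eq_zero_iff (two_ne_zero) |>.1 (IsFormallyReal.eq_zero_of_add_right h1 h2 h)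

theorem symm_sq_zero [IsFormallyReal F] {n : ℕ} (b : Matrix (Fin n) (Fin n) F) (hb : bᵀ = b)
    (h : b * b = 0) : b = 0 := by
  ext i j
  have h1 : (b * b) i i = 0 := by rw [h]; rfl
  rw [Matrix.mul_apply] at h1
  have h2 : ∑ j, b i j ^ 2 = 0 := by
    rw [← h1]
    refine Finset.sum_congr rfl fun j _ => ?_
    have : b j i = b i j := by
      have := congrFun (congrFun hb i) j
      simpa using this
    rw [this, sq]
  exact sum_sq_zero (fun j => b i j) h2 j

theorem symm_pow {n : ℕ} (b : Matrix (Fin n) (Fin n) F) (hb : bᵀ = b) (k : ℕ) : (b ^ k)ᵀ = b ^ k := by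
  rw [Matrix.transpose_pow, hb]

theorem symm_nilp_zero [IsFormallyReal F] {n : ℕ} (b : Matrix (Fin n) (Fin n) F) (hb : bᵀ = b)
    (h : IsNilpotent b) : b = 0 := by
  classical
  by_contra hne
  have hex : ∃ m, b ^ m = 0 := h
  set m := Nat.find hex with hm
  have hm0 : b ^ m = 0 := Nat.find_spec hex
  have hm2 : 2 ≤ m := by
    by_contra hlt
    have : m = 0 ∨ m = 1 := by omega
    rcases this with h0 | h1
    · rw [h0, pow_zero] at hm0
      apply hne
      rw [← mul_one b, hm0, mul_zero]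
    · rw [h1, pow_one] at hm0; exact hne hm0
  have hm1 : b ^ (m - 1) ≠ 0 := Nat.find_min hex (by omega)
  apply hm1
  apply symm_sq_zero _ (symm_pow b hb _)
  have : m - 1 + (m - 1) = m + (m - 2) := by omega
  rw [← pow_add, this, pow_add, hm0, zero_mul]

variable [CharZero F]

set_option linter.unusedSectionVars false

theorem upper_real [IsFormallyReal F] (n : ℕ)
    (N : Herm (transInv F n) →ₗ[F] Herm (transInv F n))
    (hN : IsRB F (hermMul (transInv F n) (transInv_mul n)) N) : N ^ 2 = 0 := by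
  have hττ : ∀ x, transInv F n (transInv F n x) = x := fun x => Matrix.transpose_transpose x
  have hM := ext0_RB (transInv F n) (transInv_mul n) hττ N hN
  set M := ext0 (transInv F n) hττ N with hMdef
  have hMpow := ext0_pow (transInv F n) hττ N
  rw [← hMdef] at hMpow
  have h1 : (M 1)ᵀ = M 1 := (N (proj (transInv F n) hττ 1)).2
  have ha : (M 1) ^ 1 = 0 := by
    rw [pow_one]; exact symm_nilp_zero _ h1 (nilpotent_one M hM)
  have h := general_bound M hM 1 ha
  ext x : 2
  have h2 := hMpow 2 x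
  rw [show (2 : ℕ) = 2 * 1 from rfl, h] at h2
  rw [show (2 : ℕ) = 2 * 1 from rfl, ← h2]; rfl

/-- `y ↦ y₀₁ E₀₀` on symmetric matrices. -/
def cornerOp (F : Type*) [Field F] (n : ℕ) :
    Herm (transInv F (n + 2)) →ₗ[F] Herm (transInv F (n + 2)) where
  toFun y := ⟨(y.1 0 1) • Matrix.single 0 0 1, by
    show ((y.1 0 1) • Matrix.single 0 0 (1 : F))ᵀ = _
    rw [Matrix.transpose_smul, Matrix.transpose_single]⟩
  map_add' x y := by
    apply Subtype.ext
    show ((x.1 + y.1) 0 1) • Matrix.single 0 0 (1 : F) = _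
    rw [Matrix.add_apply, add_smul]; rfl
  map_smul' c x := by
    apply Subtype.ext
    show ((c • x.1) 0 1) • Matrix.single 0 0 (1 : F) = _
    rw [Matrix.smul_apply, smul_assoc]; rfl

theorem cornerOp_coe (n : ℕ) (y : Herm (transInv F (n + 2))) :
    (cornerOp F n y).1 = (y.1 0 1) • Matrix.single 0 0 (1 : F) := rfl

theorem jmul_corner (n : ℕ) (y : Matrix (Fin (n + 2)) (Fin (n + 2)) F) :
    jmul F (Matrix.single 0 0 (1 : F)) y 0 1 = (2 : F)⁻¹ * y 0 1 := by
  unfold jmul
  rw [Matrix.smul_apply, Matrix.add_apply, Matrix.single_mul_apply_same, Matrix.mul_single_apply_of_ne]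
  · simp
  · exact Fin.zero_ne_one.symm

theorem cornerOp_RB (n : ℕ) :
    IsRB F (hermMul (transInv F (n + 2)) (transInv_mul (n + 2))) (cornerOp F n) := by
  intro x y
  apply Subtype.ext
  rw [hermMul_coe, cornerOp_coe, cornerOp_coe, cornerOp_coe, Submodule.coe_add, hermMul_coe, hermMul_coe,
    cornerOp_coe, cornerOp_coe, Matrix.add_apply, smul_jmul, jmul_smul, smul_jmul, jmul_smul, Matrix.smul_apply,
    Matrix.smul_apply, jmul_corner, jmul_comm' x.1, jmul_corner]
  have e : jmul F (Matrix.single 0 0 (1 : F)) (Matrix.single 0 0 (1 : F)) =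
      (Matrix.single 0 0 (1 : F) : Matrix (Fin (n + 2)) (Fin (n + 2)) F) := by
    rw [jmul_of_commute rfl]; simp
  rw [e, smul_smul]
  congr 1
  have h2 : (2 : F) ≠ 0 := two_ne_zero
  simp only [smul_eq_mul]
  field_simp
  ring

theorem cornerOp_ne (n : ℕ) : cornerOp F n ≠ 0 := by
  intro h
  have hy : transInv F (n + 2) (Matrix.single 0 1 (1 : F) + Matrix.single 1 0 1) =
      Matrix.single 0 1 (1 : F) + Matrix.single 1 0 1 := by
    show (Matrix.single 0 1 (1 : F) + Matrix.single 1 0 1)ᵀ = _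
    rw [Matrix.transpose_add, Matrix.transpose_single, Matrix.transpose_single]
    exact add_comm _ _
  have h1 := cornerOp_coe n ⟨_, hy⟩
  rw [h] at h1
  have h2 := congrFun (congrFun h1 0) 0
  have h3 : (0 : F) = (Matrix.single 0 1 (1 : F) + Matrix.single 1 0 1 : Matrix (Fin (n + 2)) (Fin (n + 2)) F) 0 1 := by
    have : ((0 : Herm (transInv F (n + 2)) →ₗ[F] Herm (transInv F (n + 2))) ⟨_, hy⟩).1 0 0 = 0 := rfl
    rw [this] at h2
    rw [h2]; simp
  simp at h3

/-- For a formally real field `F` and `n ≥ 3`: `rb(H_n(F)) = 2`, `rb(H_n(Q)) = 2n - 1` and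
`rb(M_n(F)^+) = 2n - 1`. -/
theorem result (F : Type*) [Field F] [CharZero F] [IsFormallyReal F] (n : ℕ) (hn : 3 ≤ n) :
    IsRBIndex F (hermMul (transInv F n) (transInv_mul n)) 2 ∧
    IsRBIndex F (hermMul (sympInv F n) (sympInv_mul n)) (2 * n - 1) ∧
    IsRBIndex F (jmul F : Matrix (Fin n) (Fin n) F → Matrix (Fin n) (Fin n) F → Matrix (Fin n) (Fin n) F)
      (2 * n - 1) := by
  obtain ⟨m, rfl⟩ : ∃ m, n = m + 1 := ⟨n - 1, by omega⟩
  refine ⟨⟨fun R hR => upper_real _ R hR, ?_⟩, ⟨fun R hR => upper_Q (m + 1) (by omega) R hR, ?_⟩,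
    ⟨fun R hR => upper_M (m + 1) (by omega) R hR, ?_⟩⟩
  · intro k hk
    by_contra hlt
    obtain ⟨l, rfl⟩ : ∃ l, m = l + 1 := ⟨m - 1, by omega⟩
    have h := hk (cornerOp F l) (cornerOp_RB l)
    apply cornerOp_ne (F := F) l
    have e : 1 = k + (1 - k) := by omega
    rw [← pow_one (cornerOp F l), e, pow_add, h, zero_mul]
  · intro k hk
    by_contra hlt
    have h := hk (NQ (m + 1) (Nop F m)) (NQ_RB (m + 1) _ (Nop_RB m))
    apply NQ_pow_ne (m + 1) _ (2 * m) (Nop_pow_ne (F := F) m)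
    have e : 2 * m = k + (2 * m - k) := by omega
    rw [e, pow_add, h, zero_mul]
  · intro k hk
    by_contra hlt
    have h := hk (Nop F m) (Nop_RB m)
    apply Nop_pow_ne (F := F) m
    have e : 2 * m = k + (2 * m - k) := by omega
    rw [e, pow_add, h, zero_mul]

end Pool.Agent.Results.MP_f4742e_al.FormallyReal
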