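import Mathlib
import Pool.Agent.H502.JRBFinal

open Matrix

namespace Pool.Agent.Results.MP_f4742e_al.MatrixAndSymplectic

open JRB

/-- The set of all natural numbers `k` such that `R ^ k = 0` for every Rota-Baxter operator `R` of
weight `0` for the product `mul`. -/
def rbSet (F : Type*) [Field F] {V : Type*} [AddCommGroup V] [Module F V] (mul : V → V → V) : Set ℕ :=
  {k | ∀ R : V →ₗ[F] V, IsRB F mul R → R ^ k = 0}

/-- `m` is the RB-index of the algebra `(V, mul)`. -/
def IsRBIndex (F : Type*) [Field F] {V : Type*} [AddCommGroup V] [Module F V] (mul : V → V → V)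
    (m : ℕ) : Prop := IsLeast (rbSet F mul) m

/-- The RB-indices of `M_n(F)^+` and of `H_n(Q)` are both `2n - 1`, and the RB-index of `H_n(F)` is at
most `2n - 1`. -/
theorem result (F : Type*) [Field F] [CharZero F] (n : ℕ) (hn : 1 ≤ n) :
    IsRBIndex F (jmul F : Matrix (Fin n) (Fin n) F → Matrix (Fin n) (Fin n) F → Matrix (Fin n) (Fin n) F)
      (2 * n - 1) ∧
    IsRBIndex F (hermMul (sympInv F n) (sympInv_mul n)) (2 * n - 1) ∧
    2 * n - 1 ∈ rbSet F (hermMul (transInv F n) (transInv_mul n)) := by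
  obtain ⟨m, rfl⟩ : ∃ m, n = m + 1 := ⟨n - 1, by omega⟩
  refine ⟨⟨fun R hR => upper_M (m + 1) hn R hR, ?_⟩, ⟨fun R hR => upper_Q (m + 1) hn R hR, ?_⟩,
    fun R hR => upper_H (m + 1) hn R hR⟩
  · intro k hk
    by_contra hlt
    have h := hk (Nop F m) (Nop_RB m)
    apply Nop_pow_ne (F := F) m
    have e : 2 * m = k + (2 * m - k) := by omega
    rw [e, pow_add, h, zero_mul]
  · intro k hk
    by_contra hlt
    have h := hk (NQ (m + 1) (Nop F m)) (NQ_RB (m + 1) _ (Nop_RB m))
    apply NQ_pow_ne (m + 1) _ (2 * m) (Nop_pow_ne (F := F) m)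
    have e : 2 * m = k + (2 * m - k) := by omega
    rw [e, pow_add, h, zero_mul]

end Pool.Agent.Results.MP_f4742e_al.MatrixAndSymplectic
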